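import Mathlib

set_option autoImplicit false

/-!
Number of connected components and bridges (MP_a46c6f_co, the torus function).
-/

namespace Pool.Agent.H44.TH

open SimpleGraph

variable {V : Type*}

/-- number of connected components -/
noncomputable def kap (F : SimpleGraph V) : ℕ := Nat.card F.ConnectedComponent

theorem adj_del {F : SimpleGraph V} {a b p q : V} :
    (F.deleteEdges {s(a, b)}).Adj p q ↔ F.Adj p q ∧ s(p, q) ≠ s(a, b) := by
  rw [deleteEdges_adj]; simp

/-- reachability after adding back an edge -/
theorem reach_cases {F : SimpleGraph V} {a b : V} {p q : V} (h : F.Reachable p q) :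
    (F.deleteEdges {s(a, b)}).Reachable p q ∨
      ((F.deleteEdges {s(a, b)}).Reachable p a ∧ (F.deleteEdges {s(a, b)}).Reachable b q) ∨
      ((F.deleteEdges {s(a, b)}).Reachable p b ∧ (F.deleteEdges {s(a, b)}).Reachable a q) := by
  obtain ⟨w⟩ := h
  induction w with
  | nil => exact Or.inl (Reachable.refl _)
  | @cons p r q hpr w ih =>
    by_cases he : s(p, r) = s(a, b)
    · rcases Sym2.eq_iff.1 he with ⟨rfl, rfl⟩ | ⟨rfl, rfl⟩
      · rcases ih with h1 | ⟨h1, h2⟩ | ⟨h1, h2⟩
        · exact Or.inr (Or.inl ⟨Reachable.refl _, h1⟩)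
        · exact Or.inr (Or.inl ⟨Reachable.refl _, h2⟩)
        · exact Or.inl h2
      · rcases ih with h1 | ⟨h1, h2⟩ | ⟨h1, h2⟩
        · exact Or.inr (Or.inr ⟨Reachable.refl _, h1⟩)
        · exact Or.inl h2
        · exact Or.inr (Or.inr ⟨Reachable.refl _, h2⟩)
    · have h0 : (F.deleteEdges {s(a, b)}).Reachable p r := (adj_del.2 ⟨hpr, he⟩).reachable
      rcases ih with h1 | ⟨h1, h2⟩ | ⟨h1, h2⟩
      · exact Or.inl (h0.trans h1)
      · exact Or.inr (Or.inl ⟨h0.trans h1, h2⟩)
      · exact Or.inr (Or.inr ⟨h0.trans h1, h2⟩)

theorem reach_of_del {F : SimpleGraph V} {a b : V} {p q : V}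
    (h : (F.deleteEdges {s(a, b)}).Reachable p q) : F.Reachable p q :=
  h.mono (deleteEdges_le _)

/-- deleting an edge which is not a bridge does not change the number of components -/
theorem kap_of_not_bridge {F : SimpleGraph V} {a b : V}
    (hb : ¬ F.IsBridge s(a, b)) : kap (F.deleteEdges {s(a, b)}) = kap F := by
  rw [isBridge_iff, not_not] at hb
  have key : ∀ p q, (F.deleteEdges {s(a, b)}).Reachable p q ↔ F.Reachable p q := by
    intro p q
    refine ⟨reach_of_del, fun h => ?_⟩
    rcases reach_cases (a := a) (b := b) h with h1 | ⟨h1, h2⟩ | ⟨h1, h2⟩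
    · exact h1
    · exact h1.trans (hb.trans h2)
    · exact h1.trans (hb.symm.trans h2)
  unfold kap
  refine Nat.card_congr ?_
  refine Quot.congrRight ?_
  exact key

/-- deleting a bridge raises the number of components by one -/
theorem kap_of_bridge [Finite V] {F : SimpleGraph V} {a b : V} (hab : F.Adj a b)
    (hb : F.IsBridge s(a, b)) : kap (F.deleteEdges {s(a, b)}) = kap F + 1 := by
  classical
  rw [isBridge_iff] at hb
  set F' := F.deleteEdges {s(a, b)} with hF'
  unfold kap
  let φ : {c : F'.ConnectedComponent // c ≠ F'.connectedComponentMk b} → F.ConnectedComponent :=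
    fun c => c.1.map (Hom.ofLE (deleteEdges_le _))
  have hφ : Function.Bijective φ := by
    constructor
    · rintro ⟨c, hc⟩ ⟨d, hd⟩ h
      induction c using ConnectedComponent.ind with
      | _ p =>
      induction d using ConnectedComponent.ind with
      | _ q =>
      have h1 : F.Reachable p q := by
        have : F.connectedComponentMk p = F.connectedComponentMk q := h
        exact ConnectedComponent.exact this
      have hp : ¬ F'.Reachable p b := fun h2 => hc (ConnectedComponent.sound h2)
      have hq : ¬ F'.Reachable q b := fun h2 => hd (ConnectedComponent.sound h2)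
      refine Subtype.ext (ConnectedComponent.sound ?_)
      rcases reach_cases (a := a) (b := b) h1 with h2 | ⟨h2, h3⟩ | ⟨h2, h3⟩
      · exact h2
      · exact absurd h3.symm hq
      · exact absurd h2 hp
    · intro c
      induction c using ConnectedComponent.ind with
      | _ p =>
      by_cases hp : F'.Reachable p b
      · refine ⟨⟨F'.connectedComponentMk a, fun h => hb (ConnectedComponent.exact h)⟩, ?_⟩
        show F.connectedComponentMk a = F.connectedComponentMk p
        exact ConnectedComponent.sound (hab.reachable.trans (reach_of_del hp).symm)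
      · exact ⟨⟨F'.connectedComponentMk p, fun h => hp (ConnectedComponent.exact h)⟩, rfl⟩
  have h1 := Nat.card_congr (Equiv.ofBijective φ hφ)
  have h2 : Nat.card {c : F'.ConnectedComponent // c ≠ F'.connectedComponentMk b} + 1 =
      Nat.card F'.ConnectedComponent := by
    have : Fintype F'.ConnectedComponent := Fintype.ofFinite _
    rw [Nat.card_eq_fintype_card, Nat.card_eq_fintype_card]
    have h3 := Fintype.card_subtype_compl (fun c => c = F'.connectedComponentMk b)
    rw [Fintype.card_subtype_eq] at h3
    have h4 : 0 < Fintype.card F'.ConnectedComponent := Fintype.card_pos_iff.2 ⟨F'.connectedComponentMk b⟩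
    rw [h3]
    omega
  rw [← h2, h1]

open Classical in
theorem kap_del [Finite V] {F : SimpleGraph V} {a b : V} (hab : F.Adj a b) :
    kap (F.deleteEdges {s(a, b)}) = kap F + if F.IsBridge s(a, b) then 1 else 0 := by
  split_ifs with h
  · exact kap_of_bridge hab h
  · rw [kap_of_not_bridge h, Nat.add_zero]

/-- the end of a bridge: if all degrees are even except at `x` and `y`, then a bridge separates `x`
from `y` -/
theorem bridge_sep [Finite V] {F : SimpleGraph V} {x y : V} (hxy : x ≠ y)
    (hdeg : ∀ v, Odd (F.neighborSet v).ncard ↔ v = x ∨ v = y) {p q : V} (hpq : F.Adj p q)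
    (hb : F.IsBridge s(p, q)) : ¬ (F.deleteEdges {s(p, q)}).Reachable x y := by
  classical
  have : Fintype V := Fintype.ofFinite _
  rw [isBridge_iff] at hb
  intro hr
  set F' := F.deleteEdges {s(p, q)} with hF'
  -- the graph `F'` on the component of `p`
  let K : SimpleGraph V :=
    { Adj := fun u v => F'.Adj u v ∧ F'.Reachable p u
      symm := ⟨fun u v h => ⟨h.1.symm, h.2.trans h.1.reachable⟩⟩
      loopless := ⟨fun u h => F'.loopless.irrefl _ h.1⟩ }
  have hK := K.even_card_odd_degree_vertices
  have hnb : ∀ v, (K.neighborFinset v).card = if F'.Reachable p v then (F'.neighborSet v).ncard else 0 := by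
    intro v
    split_ifs with h
    · rw [Set.ncard_eq_toFinset_card']
      congr 1
      ext u
      simp [K, h]
    · rw [Finset.card_eq_zero]
      ext u
      simp [K, h]
  have hF'deg : ∀ v, F'.Reachable p v → (Odd (F'.neighborSet v).ncard ↔ (v = p ∧ ¬ (p = x ∨ p = y)) ∨
      (v ≠ p ∧ (v = x ∨ v = y))) := by
    intro v hv
    by_cases hvp : v = p
    · subst hvp
      have h1 : F.neighborSet v = insert q (F'.neighborSet v) := by
        ext u
        simp only [mem_neighborSet, Set.mem_insert_iff, hF', adj_del, ne_eq]
        constructor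
        · intro h
          by_cases hu : u = q
          · exact Or.inl hu
          · refine Or.inr ⟨h, fun he => ?_⟩
            rcases Sym2.eq_iff.1 he with ⟨-, h2⟩ | ⟨h2, h3⟩
            · exact hu h2
            · exact hu (h3.trans h2)
        · rintro (rfl | ⟨h, -⟩)
          · exact hpq
          · exact h
      have h2 : q ∉ F'.neighborSet v := by
        simp [hF']
      have h3 := Set.ncard_insert_of_notMem h2 (Set.toFinite _)
      rw [← h1] at h3
      have h4 := hdeg v
      rw [h3, Nat.odd_add_one] at h4
      constructor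
      · intro h5
        left
        exact ⟨rfl, fun h6 => (h4.2 h6) h5⟩
      · rintro (⟨-, h5⟩ | ⟨h5, -⟩)
        · by_contra h6
          exact h5 (h4.1 h6)
        · exact absurd rfl h5
    · have hvq : v ≠ q := by
        rintro rfl
        exact hb hv
      have h1 : F.neighborSet v = F'.neighborSet v := by
        ext u
        simp only [mem_neighborSet, hF', adj_del, ne_eq]
        constructor
        · intro h
          refine ⟨h, fun he => ?_⟩
          rcases Sym2.eq_iff.1 he with ⟨h2, -⟩ | ⟨h2, h3⟩
          · exact hvp h2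
          · exact hvq h2
        · exact fun h => h.1
      rw [← h1, hdeg v]
      tauto
  have hset : (Finset.univ.filter fun v => Odd (K.degree v)) =
      (Finset.univ.filter fun v => F'.Reachable p v ∧ ((v = p ∧ ¬ (p = x ∨ p = y)) ∨
      (v ≠ p ∧ (v = x ∨ v = y)))) := by
    ext v
    simp only [Finset.mem_filter, Finset.mem_univ, true_and]
    rw [← card_neighborFinset_eq_degree, hnb v]
    split_ifs with h
    · rw [hF'deg v h]
      simp [h]
    · simp [h]
  rw [hset] at hK
  by_cases hpx : F'.Reachable p x
  · have hpy : F'.Reachable p y := hpx.trans hr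
    by_cases h1 : p = x
    · have : (Finset.univ.filter fun v => F'.Reachable p v ∧ ((v = p ∧ ¬ (p = x ∨ p = y)) ∨
          (v ≠ p ∧ (v = x ∨ v = y)))) = {y} := by
        ext v
        simp only [Finset.mem_filter, Finset.mem_univ, true_and, Finset.mem_singleton]
        constructor
        · rintro ⟨-, ⟨-, h3⟩ | ⟨h3, h4 | h4⟩⟩
          · exact absurd (Or.inl h1) h3
          · exact absurd (h4.trans h1.symm) h3
          · exact h4
        · rintro rfl
          exact ⟨hpy, Or.inr ⟨fun h => hxy (h.trans h1).symm, Or.inr rfl⟩⟩
      rw [this] at hK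
      simp at hK
    · by_cases h2 : p = y
      · have : (Finset.univ.filter fun v => F'.Reachable p v ∧ ((v = p ∧ ¬ (p = x ∨ p = y)) ∨
            (v ≠ p ∧ (v = x ∨ v = y)))) = {x} := by
          ext v
          simp only [Finset.mem_filter, Finset.mem_univ, true_and, Finset.mem_singleton]
          constructor
          · rintro ⟨-, ⟨-, h3⟩ | ⟨h3, h4 | h4⟩⟩
            · exact absurd (Or.inr h2) h3
            · exact h4
            · exact absurd (h4.trans h2.symm) h3
          · rintro rfl
            exact ⟨hpx, Or.inr ⟨fun h => hxy (h.trans h2), Or.inl rfl⟩⟩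
        rw [this] at hK
        simp at hK
      · have : (Finset.univ.filter fun v => F'.Reachable p v ∧ ((v = p ∧ ¬ (p = x ∨ p = y)) ∨
            (v ≠ p ∧ (v = x ∨ v = y)))) = {p, x, y} := by
          ext v
          simp only [Finset.mem_filter, Finset.mem_univ, true_and, Finset.mem_insert,
            Finset.mem_singleton]
          constructor
          · rintro ⟨-, ⟨h3, -⟩ | ⟨-, h4 | h4⟩⟩
            · exact Or.inl h3
            · exact Or.inr (Or.inl h4)
            · exact Or.inr (Or.inr h4)
          · rintro (rfl | rfl | rfl)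
            · exact ⟨Reachable.refl _, Or.inl ⟨rfl, by tauto⟩⟩
            · exact ⟨hpx, Or.inr ⟨fun h => h1 h.symm, Or.inl rfl⟩⟩
            · exact ⟨hpy, Or.inr ⟨fun h => h2 h.symm, Or.inr rfl⟩⟩
        rw [this, Finset.card_insert_of_notMem (by simp [h1, h2]),
          Finset.card_insert_of_notMem (by simp [hxy])] at hK
        simp at hK
        exact absurd hK (by decide)
  · have hpy : ¬ F'.Reachable p y := fun h => hpx (h.trans hr.symm)
    have h1 : p ≠ x := fun h => hpx (h ▸ Reachable.refl _)
    have h2 : p ≠ y := fun h => hpy (h ▸ Reachable.refl _)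
    have : (Finset.univ.filter fun v => F'.Reachable p v ∧ ((v = p ∧ ¬ (p = x ∨ p = y)) ∨
        (v ≠ p ∧ (v = x ∨ v = y)))) = {p} := by
      ext v
      simp only [Finset.mem_filter, Finset.mem_univ, true_and, Finset.mem_singleton]
      constructor
      · rintro ⟨h5, ⟨h3, -⟩ | ⟨-, h4 | h4⟩⟩
        · exact h3
        · exact absurd (h4 ▸ h5) hpx
        · exact absurd (h4 ▸ h5) hpy
      · rintro rfl
        exact ⟨Reachable.refl _, Or.inl ⟨rfl, by tauto⟩⟩
    rw [this] at hK
    simp at hK

end Pool.Agent.H44.TH
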