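import Mathlib
import Pool.Agent.H44.TH.Kappa

set_option autoImplicit false

/-!
The mixed difference of the number of components detects thetas (MP_a46c6f_co).
-/

namespace Pool.Agent.H44.TH

open SimpleGraph

variable {V : Type*}

/-- two vertices on the same side of a bridge `pq` of `T` which are connected in `F ≤ T` are
connected in `F - pq` -/
theorem same_side {T F : SimpleGraph V} (hF : F ≤ T) {p q z z' : V} (hb : T.IsBridge s(p, q))
    (h : F.Reachable z z') (hs : (T.deleteEdges {s(p, q)}).Reachable z z') :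
    (F.deleteEdges {s(p, q)}).Reachable z z' := by
  have hle : F.deleteEdges {s(p, q)} ≤ T.deleteEdges {s(p, q)} := deleteEdges_mono hF
  rw [isBridge_iff] at hb
  rcases reach_cases (a := p) (b := q) h with h1 | ⟨h1, h2⟩ | ⟨h1, h2⟩
  · exact h1
  · exact absurd (((h1.mono hle).symm.trans hs).trans (h2.mono hle).symm) hb
  · exact absurd (((h2.mono hle).trans hs.symm).trans (h1.mono hle)) hb

theorem bridge_del_iff {T : SimpleGraph V} {x y a b p q : V}
    (hyb : T.Adj y b) (hb : T.IsBridge s(p, q))
    (hsep : ¬ (T.deleteEdges {s(p, q)}).Reachable x y) :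
    (T.deleteEdges {s(x, a)}).IsBridge s(y, b) ↔ T.IsBridge s(y, b) := by
  constructor
  · intro h
    by_contra hnb
    have hne : s(y, b) ≠ s(p, q) := fun he => hnb (he ▸ hb)
    rw [isBridge_iff, not_not] at hnb
    rw [isBridge_iff] at h
    apply h
    have hyb' : (T.deleteEdges {s(p, q)}).Reachable y b := (adj_del.2 ⟨hyb, hne⟩).reachable
    have h1 := same_side (deleteEdges_le (G := T) {s(y, b)}) hb hnb hyb'
    have hle : (T.deleteEdges {s(y, b)}).deleteEdges {s(p, q)} ≤ T.deleteEdges {s(p, q)} :=
      deleteEdges_mono (deleteEdges_le _)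
    rcases reach_cases (a := x) (b := a) h1 with h2 | ⟨h2, -⟩ | ⟨-, h3⟩
    · refine h2.mono ?_
      intro u v huv
      simp only [deleteEdges_adj, Set.mem_singleton_iff] at huv ⊢
      tauto
    · exact absurd ((h2.mono ((deleteEdges_le _).trans hle)).symm) hsep
    · exact absurd ((h3.mono ((deleteEdges_le _).trans hle)).trans hyb'.symm) hsep
  · intro h
    rw [isBridge_iff] at h ⊢
    intro h2
    refine h (h2.mono ?_)
    exact deleteEdges_mono (deleteEdges_le _)

section Main

variable [Finite V] {T : SimpleGraph V} {x y : V} (hxy : x ≠ y)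
  (hdeg : ∀ v, Odd (T.neighborSet v).ncard ↔ v = x ∨ v = y)
  {a a' b b' : V} (ha : T.Adj x a) (ha' : T.Adj x a') (hb : T.Adj y b) (hb' : T.Adj y b')
  (hab : s(x, a) ≠ s(y, b)) (hab' : s(x, a) ≠ s(y, b')) (ha'b : s(x, a') ≠ s(y, b))
  (ha'b' : s(x, a') ≠ s(y, b'))

/-- `T` without one edge at `x` and one edge at `y` -/
abbrev cor (T : SimpleGraph V) (x a y b : V) : SimpleGraph V :=
  (T.deleteEdges {s(x, a)}).deleteEdges {s(y, b)}

open Classical in
theorem kap_cor (ha : T.Adj x a) (hb : T.Adj y b) (hab : s(x, a) ≠ s(y, b)) :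
    kap (cor T x a y b) = kap T + (if T.IsBridge s(x, a) then 1 else 0) +
      if (T.deleteEdges {s(x, a)}).IsBridge s(y, b) then 1 else 0 := by
  rw [cor, kap_del (adj_del.2 ⟨hb, hab.symm⟩), kap_del ha]

include hxy hdeg ha ha' hb hb' hab hab' ha'b ha'b'

/-- if `T` has a bridge, then the mixed difference is zero -/
theorem mixed_zero {p q : V} (hpq : T.Adj p q) (hbr : T.IsBridge s(p, q)) :
    kap (cor T x a y b) + kap (cor T x a' y b') = kap (cor T x a y b') + kap (cor T x a' y b) := by
  classical
  have hsep := bridge_sep hxy hdeg hpq hbr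
  rw [kap_cor ha hb hab, kap_cor ha' hb' ha'b', kap_cor ha hb' hab', kap_cor ha' hb ha'b]
  simp only [bridge_del_iff hb hbr hsep, bridge_del_iff hb' hbr hsep]
  omega

/-- if the mixed difference is not zero, then `T` has no bridge -/
theorem no_bridge
    (hm : kap (cor T x a y b) + kap (cor T x a' y b') ≠
      kap (cor T x a y b') + kap (cor T x a' y b)) {p q : V} (hpq : T.Adj p q) :
    ¬ T.IsBridge s(p, q) := fun h =>
  hm (mixed_zero hxy hdeg ha ha' hb hb' hab hab' ha'b ha'b' hpq h)

/-- if the mixed difference is not zero, then the number of components of `T` is the minimum of the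
four corners -/
theorem kap_min
    (hm : kap (cor T x a y b) + kap (cor T x a' y b') ≠
      kap (cor T x a y b') + kap (cor T x a' y b)) (m : ℕ)
    (h1 : m ≤ kap (cor T x a y b)) (h2 : m ≤ kap (cor T x a' y b'))
    (h3 : m ≤ kap (cor T x a y b')) (h4 : m ≤ kap (cor T x a' y b)) : m ≤ kap T := by
  classical
  have hn : ∀ {p q : V}, T.Adj p q → ¬ T.IsBridge s(p, q) := fun hpq =>
    no_bridge hxy hdeg ha ha' hb hb' hab hab' ha'b ha'b' hm hpq
  rw [kap_cor ha hb hab, kap_cor ha' hb' ha'b', kap_cor ha hb' hab', kap_cor ha' hb ha'b] at hm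
  rw [kap_cor ha hb hab, if_neg (hn ha)] at h1
  rw [kap_cor ha' hb' ha'b', if_neg (hn ha')] at h2
  rw [kap_cor ha hb' hab', if_neg (hn ha)] at h3
  rw [kap_cor ha' hb ha'b, if_neg (hn ha')] at h4
  rw [if_neg (hn ha), if_neg (hn ha')] at hm
  split_ifs at * <;> omega

/-- if the mixed difference is not zero, then `x` and `y` are connected in `T` -/
theorem reach_xy
    (hm : kap (cor T x a y b) + kap (cor T x a' y b') ≠
      kap (cor T x a y b') + kap (cor T x a' y b)) : T.Reachable x y := by
  classical
  have hn : ∀ {p q : V}, T.Adj p q → ¬ T.IsBridge s(p, q) := fun hpq =>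
    no_bridge hxy hdeg ha ha' hb hb' hab hab' ha'b ha'b' hm hpq
  have key : ∀ {a b : V}, T.Adj x a → T.Adj y b → (T.deleteEdges {s(x, a)}).IsBridge s(y, b) →
      T.Reachable x y := by
    intro a b ha hb h
    have h1 := hn hb
    rw [isBridge_iff, not_not] at h1
    rw [isBridge_iff] at h
    rcases reach_cases (a := x) (b := a) h1 with h2 | ⟨h2, -⟩ | ⟨h2, -⟩
    · refine absurd (h2.mono ?_) h
      intro u v huv
      simp only [deleteEdges_adj, Set.mem_singleton_iff] at huv ⊢
      tauto
    · exact (h2.mono ((deleteEdges_le _).trans (deleteEdges_le _))).symm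
    · exact ((h2.mono ((deleteEdges_le _).trans (deleteEdges_le _))).trans ha.symm.reachable).symm
  rw [kap_cor ha hb hab, kap_cor ha' hb' ha'b', kap_cor ha hb' hab', kap_cor ha' hb ha'b] at hm
  rw [if_neg (hn ha), if_neg (hn ha')] at hm
  by_cases h1 : (T.deleteEdges {s(x, a)}).IsBridge s(y, b)
  · exact key ha hb h1
  by_cases h2 : (T.deleteEdges {s(x, a')}).IsBridge s(y, b')
  · exact key ha' hb' h2
  by_cases h3 : (T.deleteEdges {s(x, a)}).IsBridge s(y, b')
  · exact key ha hb' h3
  by_cases h4 : (T.deleteEdges {s(x, a')}).IsBridge s(y, b)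
  · exact key ha' hb h4
  rw [if_neg h1, if_neg h2, if_neg h3, if_neg h4] at hm
  exact absurd rfl hm

end Main

/-- more than one component: a vertex outside the component of `x` -/
theorem exists_not_reach [Finite V] {F : SimpleGraph V} (x : V) (h : 2 ≤ kap F) :
    ∃ z, ¬ F.Reachable x z := by
  by_contra hcon
  push Not at hcon
  have : Subsingleton F.ConnectedComponent := by
    refine ⟨fun c d => ?_⟩
    induction c using ConnectedComponent.ind with
    | _ p =>
    induction d using ConnectedComponent.ind with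
    | _ q =>
    exact ConnectedComponent.sound ((hcon p).symm.trans (hcon q))
  have h1 : Nat.card F.ConnectedComponent ≤ 1 := Finite.card_le_one_iff_subsingleton.2 this
  unfold kap at h
  omega

end Pool.Agent.H44.TH
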