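import Mathlib
import Pool.Agent.H57.TH.Model
import Pool.Agent.H44.TH.Mixed

set_option autoImplicit false

/-!
The four corners of `T(u, v)` and the torus function `c` (MP_a46c6f_co).
-/

namespace Pool.Agent.H44.TH

open SimpleGraph Pool.Agent.H57.TH

variable {n : ℕ} [NeZero n]

theorem odd_val_add_one (hn : 3 ≤ n) (ho : Odd n) (u i : Fin n) :
    Odd (i - (u + 1)).val ↔ Even (i - u).val ∧ i ≠ u := by
  have h1 : i - (u + 1) = (i - u) - 1 := by abel
  by_cases hi : i = u
  · subst hi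
    rw [h1, sub_self, val_neg_one' hn]
    have : Even (n - 1) := by
      obtain ⟨k, hk⟩ := ho
      exact ⟨k, by omega⟩
    simp [this]
  · have hd : i - u ≠ 0 := sub_ne_zero.2 hi
    have h0 : (i - u).val ≠ 0 := fun h => hd (Fin.ext (by rw [h]; rfl))
    rw [h1, val_sub_one' hn _ hd]
    simp only [ne_eq, hi, not_false_eq_true, and_true, Nat.odd_iff, Nat.even_iff]
    omega

theorem odd_val_sub_one (hn : 3 ≤ n) (u i : Fin n) :
    Odd (i - (u - 1)).val ↔ Even (i - u).val ∧ i ≠ u - 1 := by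
  have h1 : i - u = (i - (u - 1)) - 1 := by abel
  by_cases hi : i = u - 1
  · subst hi
    rw [sub_self]
    simp
  · have hd : i - (u - 1) ≠ 0 := sub_ne_zero.2 hi
    have h0 : (i - (u - 1)).val ≠ 0 := fun h => hd (Fin.ext (by rw [h]; rfl))
    rw [h1, val_sub_one' hn _ hd]
    simp only [ne_eq, hi, not_false_eq_true, and_true, Nat.odd_iff, Nat.even_iff]
    omega

theorem sc_congr {π : Fin n → Fin n} {P Q P' Q' : Fin n → Prop} (h1 : ∀ i, P i ↔ P' i)
    (h2 : ∀ i, Q i ↔ Q' i) : Sc π P Q = Sc π P' Q' := by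
  have h1' : P = P' := funext fun i => propext (h1 i)
  have h2' : Q = Q' := funext fun i => propext (h2 i)
  rw [h1', h2']

theorem sc_del_inl (hn : 3 ≤ n) {π : Fin n → Fin n} {P Q : Fin n → Prop} (k : Fin n) :
    (Sc π P Q).deleteEdges {s(.inl k, .inl (k + 1))} = Sc π (fun i => P i ∧ i ≠ k) Q := by
  ext a b
  rw [deleteEdges_adj, Set.mem_singleton_iff]
  rcases a with i | i <;> rcases b with j | j
  · rw [sc_inl_inl hn, sc_inl_inl hn]
    simp only [Sym2.eq_iff, Sum.inl.injEq]
    constructor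
    · rintro ⟨⟨rfl, h1⟩ | ⟨rfl, h1⟩, h2⟩
      · refine Or.inl ⟨rfl, h1, ?_⟩
        rintro rfl
        exact h2 (Or.inl ⟨rfl, rfl⟩)
      · refine Or.inr ⟨rfl, h1, ?_⟩
        rintro rfl
        exact h2 (Or.inr ⟨rfl, rfl⟩)
    · rintro (⟨rfl, h1, h2⟩ | ⟨rfl, h1, h2⟩)
      · refine ⟨Or.inl ⟨rfl, h1⟩, ?_⟩
        rintro (⟨h3, -⟩ | ⟨h3, h4⟩)
        · exact h2 h3
        · exact add_two_ne hn k i h3 h4.symm
      · refine ⟨Or.inr ⟨rfl, h1⟩, ?_⟩
        rintro (⟨h3, h4⟩ | ⟨h3, h4⟩)
        · exact add_two_ne hn k j h4 h3.symm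
        · exact h2 h4
  · simp [sc_inl_inr]
  · simp [sc_inr_inl]
  · rw [sc_inr_inr hn, sc_inr_inr hn]
    simp

theorem sc_del_inr (hn : 3 ≤ n) {π : Fin n → Fin n} {P Q : Fin n → Prop} (k : Fin n) :
    (Sc π P Q).deleteEdges {s(.inr k, .inr (k + 1))} = Sc π P (fun i => Q i ∧ i ≠ k) := by
  ext a b
  rw [deleteEdges_adj, Set.mem_singleton_iff]
  rcases a with i | i <;> rcases b with j | j
  · rw [sc_inl_inl hn, sc_inl_inl hn]
    simp
  · simp [sc_inl_inr]
  · simp [sc_inr_inl]
  · rw [sc_inr_inr hn, sc_inr_inr hn]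
    simp only [Sym2.eq_iff, Sum.inr.injEq]
    constructor
    · rintro ⟨⟨rfl, h1⟩ | ⟨rfl, h1⟩, h2⟩
      · refine Or.inl ⟨rfl, h1, ?_⟩
        rintro rfl
        exact h2 (Or.inl ⟨rfl, rfl⟩)
      · refine Or.inr ⟨rfl, h1, ?_⟩
        rintro rfl
        exact h2 (Or.inr ⟨rfl, rfl⟩)
    · rintro (⟨rfl, h1, h2⟩ | ⟨rfl, h1, h2⟩)
      · refine ⟨Or.inl ⟨rfl, h1⟩, ?_⟩
        rintro (⟨h3, -⟩ | ⟨h3, h4⟩)
        · exact h2 h3
        · exact add_two_ne hn k i h3 h4.symm
      · refine ⟨Or.inr ⟨rfl, h1⟩, ?_⟩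
        rintro (⟨h3, h4⟩ | ⟨h3, h4⟩)
        · exact add_two_ne hn k j h4 h3.symm
        · exact h2 h4

/-- the four corners -/
theorem cor_pp (hn : 3 ≤ n) (ho : Odd n) (π : Fin n → Fin n) (u v : Fin n) :
    cor (Tc π u v) (.inl u) (.inl (u + 1)) (.inr v) (.inr (v + 1)) = Hc π (u + 1) (v + 1) := by
  rw [cor, Tc, sc_del_inl hn, sc_del_inr hn, Hc]
  exact sc_congr (fun i => (odd_val_add_one hn ho u i).symm) fun i =>
    (odd_val_add_one hn ho v i).symm

theorem edge_sub_inl (u : Fin n) :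
    (s(.inl u, .inl (u - 1)) : Sym2 (Fin n ⊕ Fin n)) = s(.inl (u - 1), .inl (u - 1 + 1)) := by
  rw [sub_add_cancel, Sym2.eq_swap]

theorem edge_sub_inr (u : Fin n) :
    (s(.inr u, .inr (u - 1)) : Sym2 (Fin n ⊕ Fin n)) = s(.inr (u - 1), .inr (u - 1 + 1)) := by
  rw [sub_add_cancel, Sym2.eq_swap]

theorem cor_mp (hn : 3 ≤ n) (ho : Odd n) (π : Fin n → Fin n) (u v : Fin n) :
    cor (Tc π u v) (.inl u) (.inl (u - 1)) (.inr v) (.inr (v + 1)) = Hc π (u - 1) (v + 1) := by
  rw [cor, Tc, edge_sub_inl, sc_del_inl hn, sc_del_inr hn, Hc]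
  exact sc_congr (fun i => (odd_val_sub_one hn u i).symm) fun i =>
    (odd_val_add_one hn ho v i).symm

theorem cor_pm (hn : 3 ≤ n) (ho : Odd n) (π : Fin n → Fin n) (u v : Fin n) :
    cor (Tc π u v) (.inl u) (.inl (u + 1)) (.inr v) (.inr (v - 1)) = Hc π (u + 1) (v - 1) := by
  rw [cor, Tc, edge_sub_inr, sc_del_inl hn, sc_del_inr hn, Hc]
  exact sc_congr (fun i => (odd_val_add_one hn ho u i).symm) fun i =>
    (odd_val_sub_one hn v i).symm

theorem cor_mm (hn : 3 ≤ n) (π : Fin n → Fin n) (u v : Fin n) :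
    cor (Tc π u v) (.inl u) (.inl (u - 1)) (.inr v) (.inr (v - 1)) = Hc π (u - 1) (v - 1) := by
  rw [cor, Tc, edge_sub_inl, edge_sub_inr, sc_del_inl hn, sc_del_inr hn, Hc]
  exact sc_congr (fun i => (odd_val_sub_one hn u i).symm) fun i =>
    (odd_val_sub_one hn v i).symm

theorem even_sub_one (hn : 3 ≤ n) (ho : Odd n) (u : Fin n) : Even (u - 1 - u).val := by
  have h1 := (par_u hn ho u).2
  rwa [Nat.not_odd_iff_even] at h1

theorem tc_adj_up (hn : 3 ≤ n) (π : Fin n → Fin n) (u v : Fin n) :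
    (Tc π u v).Adj (.inl u) (.inl (u + 1)) := by
  rw [Tc, sc_inl_inl hn]
  exact Or.inl ⟨rfl, by simp⟩

theorem tc_adj_um (hn : 3 ≤ n) (ho : Odd n) (π : Fin n → Fin n) (u v : Fin n) :
    (Tc π u v).Adj (.inl u) (.inl (u - 1)) := by
  rw [Tc, sc_inl_inl hn]
  exact Or.inr ⟨(sub_add_cancel u 1).symm, even_sub_one hn ho u⟩

theorem tc_adj_vp (hn : 3 ≤ n) (π : Fin n → Fin n) (u v : Fin n) :
    (Tc π u v).Adj (.inr v) (.inr (v + 1)) := by
  rw [Tc, sc_inr_inr hn]
  exact Or.inl ⟨rfl, by simp⟩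

theorem tc_adj_vm (hn : 3 ≤ n) (ho : Odd n) (π : Fin n → Fin n) (u v : Fin n) :
    (Tc π u v).Adj (.inr v) (.inr (v - 1)) := by
  rw [Tc, sc_inr_inr hn]
  exact Or.inr ⟨(sub_add_cancel v 1).symm, even_sub_one hn ho v⟩

theorem tc_nbr_inl (hn : 3 ≤ n) (ho : Odd n) (π : Fin n → Fin n) (u v i : Fin n) :
    ((Tc π u v).neighborSet (.inl i)).ncard = if i = u then 3 else 2 := by
  split_ifs with h
  · subst h
    have : (Tc π i v).neighborSet (.inl i) = {.inr (π i), .inl (i + 1), .inl (i - 1)} := by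
      ext a
      rcases a with j | j
      · simp only [mem_neighborSet, Tc, sc_inl_inl hn, Set.mem_insert_iff, Set.mem_singleton_iff,
          reduceCtorEq, false_or, Sum.inl.injEq]
        constructor
        · rintro (⟨h1, _⟩ | ⟨h1, h2⟩)
          · exact Or.inl h1
          · exact Or.inr (by rw [h1]; abel)
        · rintro (h1 | h1)
          · exact Or.inl ⟨h1, by simp⟩
          · subst h1
            exact Or.inr ⟨by abel, even_sub_one hn ho i⟩
      · simp [mem_neighborSet, Tc, sc_inl_inr]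
    rw [this]
    have h2 : (i + 1 : Fin n) ≠ i - 1 := fun h =>
      add_two_ne hn (i - 1) i (by abel) h.symm
    rw [Set.ncard_insert_of_notMem (by simp) (Set.toFinite _), Set.ncard_pair (by simpa using h2)]
  · have hp := par hn u i h
    by_cases hi : Odd (i - u).val
    · have hi' : ¬ Odd (i - 1 - u).val := hp.1 hi
      rw [Nat.not_odd_iff_even] at hi'
      have : (Tc π u v).neighborSet (.inl i) = {.inr (π i), .inl (i - 1)} := by
        ext a
        rcases a with j | j
        · simp only [mem_neighborSet, Tc, sc_inl_inl hn, Set.mem_insert_iff, Set.mem_singleton_iff,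
            reduceCtorEq, false_or, Sum.inl.injEq]
          constructor
          · rintro (⟨h1, h2⟩ | ⟨h1, h2⟩)
            · exact absurd hi (Nat.not_odd_iff_even.2 h2)
            · rw [h1]; abel
          · intro h1
            subst h1
            exact Or.inr ⟨by abel, hi'⟩
        · simp [mem_neighborSet, Tc, sc_inl_inr]
      rw [this]
      exact Set.ncard_pair (by simp)
    · have hi' : Odd (i - 1 - u).val := by
        by_contra h3
        exact hi (hp.2 h3)
      rw [Nat.not_odd_iff_even] at hi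
      have : (Tc π u v).neighborSet (.inl i) = {.inr (π i), .inl (i + 1)} := by
        ext a
        rcases a with j | j
        · simp only [mem_neighborSet, Tc, sc_inl_inl hn, Set.mem_insert_iff, Set.mem_singleton_iff,
            reduceCtorEq, false_or, Sum.inl.injEq]
          constructor
          · rintro (⟨h1, h2⟩ | ⟨h1, h2⟩)
            · exact h1
            · exfalso
              have h3 : j = i - 1 := by rw [h1]; abel
              subst h3
              exact (Nat.not_odd_iff_even.2 h2) hi'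
          · intro h1
            exact Or.inl ⟨h1, hi⟩
        · simp [mem_neighborSet, Tc, sc_inl_inr]
      rw [this]
      exact Set.ncard_pair (by simp)

theorem tc_nbr_inr (hn : 3 ≤ n) (ho : Odd n) (π : Fin n → Fin n) (hπ : Function.Bijective π)
    (u v j : Fin n) : ((Tc π u v).neighborSet (.inr j)).ncard = if j = v then 3 else 2 := by
  obtain ⟨i, rfl⟩ := hπ.2 j
  have hM : ∀ k, π i = π k ↔ k = i := fun k => ⟨fun h => (hπ.1 h).symm, fun h => by rw [h]⟩
  split_ifs with h
  · subst h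
    have : (Tc π u (π i)).neighborSet (.inr (π i)) = {.inl i, .inr (π i + 1), .inr (π i - 1)} := by
      ext a
      rcases a with j | j
      · simp [mem_neighborSet, Tc, sc_inr_inl, hM]
      · simp only [mem_neighborSet, Tc, sc_inr_inr hn, Set.mem_insert_iff, Set.mem_singleton_iff,
          reduceCtorEq, false_or, Sum.inr.injEq]
        constructor
        · rintro (⟨h1, _⟩ | ⟨h1, h2⟩)
          · exact Or.inl h1
          · exact Or.inr (by rw [h1]; abel)
        · rintro (h1 | h1)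
          · exact Or.inl ⟨h1, by simp⟩
          · subst h1
            exact Or.inr ⟨by abel, even_sub_one hn ho _⟩
    rw [this]
    have h2 : (π i + 1 : Fin n) ≠ π i - 1 := fun h =>
      add_two_ne hn (π i - 1) (π i) (by abel) h.symm
    rw [Set.ncard_insert_of_notMem (by simp) (Set.toFinite _), Set.ncard_pair (by simpa using h2)]
  · have hp := par hn v (π i) h
    by_cases hi : Odd (π i - v).val
    · have hi' : ¬ Odd (π i - 1 - v).val := hp.1 hi
      rw [Nat.not_odd_iff_even] at hi'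
      have : (Tc π u v).neighborSet (.inr (π i)) = {.inl i, .inr (π i - 1)} := by
        ext a
        rcases a with j | j
        · simp [mem_neighborSet, Tc, sc_inr_inl, hM]
        · simp only [mem_neighborSet, Tc, sc_inr_inr hn, Set.mem_insert_iff, Set.mem_singleton_iff,
            reduceCtorEq, false_or, Sum.inr.injEq]
          constructor
          · rintro (⟨h1, h2⟩ | ⟨h1, h2⟩)
            · exact absurd hi (Nat.not_odd_iff_even.2 h2)
            · rw [h1]; abel
          · intro h1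
            subst h1
            exact Or.inr ⟨by abel, hi'⟩
      rw [this]
      exact Set.ncard_pair (by simp)
    · have hi' : Odd (π i - 1 - v).val := by
        by_contra h3
        exact hi (hp.2 h3)
      rw [Nat.not_odd_iff_even] at hi
      have : (Tc π u v).neighborSet (.inr (π i)) = {.inl i, .inr (π i + 1)} := by
        ext a
        rcases a with j | j
        · simp [mem_neighborSet, Tc, sc_inr_inl, hM]
        · simp only [mem_neighborSet, Tc, sc_inr_inr hn, Set.mem_insert_iff, Set.mem_singleton_iff,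
            reduceCtorEq, false_or, Sum.inr.injEq]
          constructor
          · rintro (⟨h1, h2⟩ | ⟨h1, h2⟩)
            · exact h1
            · exfalso
              have h3 : j = π i - 1 := by rw [h1]; abel
              subst h3
              exact (Nat.not_odd_iff_even.2 h2) hi'
          · intro h1
            exact Or.inl ⟨h1, hi⟩
      rw [this]
      exact Set.ncard_pair (by simp)

theorem tc_deg (hn : 3 ≤ n) (ho : Odd n) (π : Fin n → Fin n) (hπ : Function.Bijective π)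
    (u v : Fin n) (a : Fin n ⊕ Fin n) :
    Odd ((Tc π u v).neighborSet a).ncard ↔ a = .inl u ∨ a = .inr v := by
  rcases a with i | j
  · rw [tc_nbr_inl hn ho]
    split_ifs with h
    · simp [h]; decide
    · simp [h]
  · rw [tc_nbr_inr hn ho π hπ]
    split_ifs with h
    · simp [h]; decide
    · simp [h]

omit [NeZero n] in
theorem ne_edge (i j k l : Fin n) :
    (s(.inl i, .inl j) : Sym2 (Fin n ⊕ Fin n)) ≠ s(.inr k, .inr l) := by
  simp

/-- the torus function: the number of circuits of `H(u, v)` -/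
noncomputable def cc (π : Fin n → Fin n) (u v : Fin n) : ℕ := kap (Hc π u v) - 1

theorem kap_pos (π : Fin n → Fin n) (u v : Fin n) : 1 ≤ kap (Hc π u v) := by
  unfold kap
  have : Nonempty (Hc π u v).ConnectedComponent := ⟨(Hc π u v).connectedComponentMk (.inl u)⟩
  exact Nat.card_pos

theorem kap_eq (π : Fin n → Fin n) (u v : Fin n) : kap (Hc π u v) = cc π u v + 1 := by
  have := kap_pos π u v
  unfold cc
  omega

/-- `T(u, v)` is a theta: the mixed difference of `c` at the four diagonal neighbours is not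
zero -/
def Theta (π : Fin n → Fin n) (u v : Fin n) : Prop :=
  cc π (u + 1) (v + 1) + cc π (u - 1) (v - 1) ≠ cc π (u + 1) (v - 1) + cc π (u - 1) (v + 1)

section Main

variable (hn : 3 ≤ n) (ho : Odd n) (π : Fin n → Fin n) (hπ : Function.Bijective π) (u v : Fin n)
  (hθ : Theta π u v)

include hn ho hθ in
theorem theta_mixed :
    kap (cor (Tc π u v) (.inl u) (.inl (u + 1)) (.inr v) (.inr (v + 1))) +
      kap (cor (Tc π u v) (.inl u) (.inl (u - 1)) (.inr v) (.inr (v - 1))) ≠
    kap (cor (Tc π u v) (.inl u) (.inl (u + 1)) (.inr v) (.inr (v - 1))) +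
      kap (cor (Tc π u v) (.inl u) (.inl (u - 1)) (.inr v) (.inr (v + 1))) := by
  rw [cor_pp hn ho, cor_mm hn, cor_pm hn ho, cor_mp hn ho, kap_eq, kap_eq, kap_eq, kap_eq]
  unfold Theta at hθ
  omega

include hn ho hπ hθ

/-- a theta has no bridge -/
theorem theta_no_bridge {p q : Fin n ⊕ Fin n} (hpq : (Tc π u v).Adj p q) :
    ¬ (Tc π u v).IsBridge s(p, q) := by
  have hm := theta_mixed hn ho π u v hθ
  exact no_bridge Sum.inl_ne_inr (tc_deg hn ho π hπ u v)
    (tc_adj_up hn π u v) (tc_adj_um hn ho π u v) (tc_adj_vp hn π u v) (tc_adj_vm hn ho π u v)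
    (ne_edge _ _ _ _) (ne_edge _ _ _ _) (ne_edge _ _ _ _) (ne_edge _ _ _ _) hm hpq

/-- `x_u` and `y_v` are connected in `T(u, v)` -/
theorem theta_reach : (Tc π u v).Reachable (.inl u) (.inr v) := by
  have hm := theta_mixed hn ho π u v hθ
  exact reach_xy Sum.inl_ne_inr (tc_deg hn ho π hπ u v)
    (tc_adj_up hn π u v) (tc_adj_um hn ho π u v) (tc_adj_vp hn π u v) (tc_adj_vm hn ho π u v)
    (ne_edge _ _ _ _) (ne_edge _ _ _ _) (ne_edge _ _ _ _) (ne_edge _ _ _ _) hm

/-- if the four corners of a theta are positive, then `T(u, v)` has a further component -/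
theorem theta_corners (h1 : 1 ≤ cc π (u + 1) (v + 1)) (h2 : 1 ≤ cc π (u - 1) (v - 1))
    (h3 : 1 ≤ cc π (u + 1) (v - 1)) (h4 : 1 ≤ cc π (u - 1) (v + 1)) :
    ∃ z, ¬ (Tc π u v).Reachable (.inl u) z := by
  have hm := theta_mixed hn ho π u v hθ
  refine exists_not_reach _ ?_
  refine kap_min Sum.inl_ne_inr (tc_deg hn ho π hπ u v)
    (tc_adj_up hn π u v) (tc_adj_um hn ho π u v) (tc_adj_vp hn π u v) (tc_adj_vm hn ho π u v)
    (ne_edge _ _ _ _) (ne_edge _ _ _ _) (ne_edge _ _ _ _) (ne_edge _ _ _ _) hm 2 ?_ ?_ ?_ ?_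
  · rw [cor_pp hn ho, kap_eq]; omega
  · rw [cor_mm hn, kap_eq]; omega
  · rw [cor_pm hn ho, kap_eq]; omega
  · rw [cor_mp hn ho, kap_eq]; omega

end Main

/-- `c(u, v) ≥ 1` gives a vertex outside the path -/
theorem cc_pos {π : Fin n → Fin n} {u v : Fin n} (h : 1 ≤ cc π u v) :
    ∃ z, ¬ (Hc π u v).Reachable (.inl u) z := by
  refine exists_not_reach _ ?_
  rw [kap_eq]; omega

/-- (THETA) at `(u, v)` in terms of the torus function: `T(u, v)` is a theta and `c(u, v) ≥ 1`, or
all four corners are `≥ 1` -/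
def GoodAt (π : Fin n → Fin n) (u v : Fin n) : Prop :=
  Theta π u v ∧ (1 ≤ cc π u v ∨ (1 ≤ cc π (u + 1) (v + 1) ∧ 1 ≤ cc π (u - 1) (v - 1) ∧
    1 ≤ cc π (u + 1) (v - 1) ∧ 1 ≤ cc π (u - 1) (v + 1)))

theorem th2 (hn : 3 ≤ n) (ho : Odd n) (π : Fin n → Fin n) (hπ : Function.Bijective π)
    (u v : Fin n) (h : GoodAt π u v) :
    (∀ p q, (Tc π u v).Adj p q → ¬ (Tc π u v).IsBridge s(p, q)) ∧
      ((∃ z, ¬ (Hc π u v).Reachable (.inl u) z) ∨
        ∃ z, ¬ (Tc π u v).Reachable (.inl u) z ∧ ¬ (Tc π u v).Reachable (.inr v) z) := by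
  refine ⟨fun p q hpq => theta_no_bridge hn ho π hπ u v h.1 hpq, ?_⟩
  rcases h.2 with h1 | ⟨h1, h2, h3, h4⟩
  · exact Or.inl (cc_pos h1)
  · obtain ⟨z, hz⟩ := theta_corners hn ho π hπ u v h.1 h1 h2 h3 h4
    exact Or.inr ⟨z, hz, fun hz' => hz ((theta_reach hn ho π hπ u v h.1).trans hz')⟩

end Pool.Agent.H44.TH
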