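import Mathlib

set_option autoImplicit false

/-!
Kotzig's theorem: a finite graph with exactly one perfect matching has a bridge which is an edge of
this matching (MP_a46c6f_co).
-/

namespace Pool.Agent.H44.TH

open SimpleGraph

universe uu

/-- `m` is a perfect matching of `F` -/
def IsPM {V : Type uu} (F : SimpleGraph V) (m : V → V) : Prop :=
  (∀ v, m (m v) = v) ∧ ∀ v, F.Adj v (m v)

section Cyc

/-- the partner of `a` in the near perfect matching of a cycle of odd length that misses `l` -/
def rr {n : ℕ} [NeZero n] (l a : Fin n) : Fin n := if Odd (a - l).val then a + 1 else a - 1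

variable {n : ℕ} [NeZero n]

theorem rr_val_one (hn : 3 ≤ n) : (1 : Fin n).val = 1 := by
  rw [Fin.val_one']
  exact Nat.mod_eq_of_lt (by omega)

theorem rr_val_succ (hn : 3 ≤ n) (ho : Odd n) (d : Fin n) (hd : Odd d.val) :
    (d + 1).val = d.val + 1 := by
  have h1 := d.isLt
  rw [Fin.val_add, rr_val_one hn]
  refine Nat.mod_eq_of_lt ?_
  obtain ⟨k, hk⟩ := ho
  obtain ⟨j, hj⟩ := hd
  omega

theorem rr_val_pred (hn : 3 ≤ n) (d : Fin n) (hd : d ≠ 0) : (d - 1).val = d.val - 1 := by
  have h0 : d.val ≠ 0 := fun h => hd (Fin.ext (by rw [h]; rfl))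
  have hlt := d.isLt
  rw [Fin.val_sub, rr_val_one hn]
  have : n - 1 + d.val = (d.val - 1) + n := by omega
  rw [this, Nat.add_mod_right, Nat.mod_eq_of_lt (by omega)]

theorem rr_spec (hn : 3 ≤ n) (ho : Odd n) (l a : Fin n) (h : a ≠ l) :
    rr l a ≠ l ∧ rr l (rr l a) = a ∧ rr l a ≠ a := by
  have hd : a - l ≠ 0 := sub_ne_zero.2 h
  have h0 : (a - l).val ≠ 0 := fun h => hd (Fin.ext (by rw [h]; rfl))
  have h10 : (1 : Fin n) ≠ 0 := by
    intro h1
    have := congrArg Fin.val h1
    rw [rr_val_one hn] at this
    simp at this
  by_cases hodd : Odd (a - l).val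
  · have h1 := rr_val_succ hn ho _ hodd
    have e1 : rr l a = a + 1 := if_pos hodd
    have e2 : a + 1 - l = (a - l) + 1 := by abel
    rw [← e2] at h1
    refine ⟨?_, ?_, ?_⟩
    · rw [e1]
      intro h2
      rw [h2, sub_self] at h1
      simp at h1
    · rw [e1]
      have h3 : ¬ Odd (a + 1 - l).val := by
        rw [h1, Nat.odd_add_one, not_not]
        exact hodd
      unfold rr
      rw [if_neg h3]
      abel
    · rw [e1]
      intro h2
      apply h10
      have := congrArg (fun t => t - a) h2
      simpa using this
  · have h1 := rr_val_pred hn _ hd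
    have e1 : rr l a = a - 1 := if_neg hodd
    have e2 : a - 1 - l = (a - l) - 1 := by abel
    rw [← e2] at h1
    have hev : Even (a - l).val := Nat.not_odd_iff_even.1 hodd
    have h3 : Odd (a - 1 - l).val := by
      rw [h1]
      obtain ⟨k, hk⟩ := hev
      exact ⟨k - 1, by omega⟩
    refine ⟨?_, ?_, ?_⟩
    · rw [e1]
      intro h2
      rw [h2, sub_self] at h3
      simp at h3
    · rw [e1]
      unfold rr
      rw [if_pos h3]
      abel
    · rw [e1]
      intro h2
      apply h10
      have := congrArg (fun t => a - t) h2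
      simpa using this

end Cyc

section Blossom

variable {V : Type uu} (F : SimpleGraph V) (m : V → V) (hm : IsPM F m)
  (hu : ∀ m', IsPM F m' → m' = m) {n : ℕ} [NeZero n] (hn : 3 ≤ n) (ho : Odd n) (c : Fin n → V)
  (hc : Function.Injective c) (hadj : ∀ a, F.Adj (c a) (c (a + 1))) (r : Fin n)
  (hr : ∀ a, a ≠ r → ∃ b, m (c a) = c b) (hr' : ∀ a, m (c r) ≠ c a)

/-- the vertex set of the contracted graph -/
abbrev CV (c : Fin n → V) (r : Fin n) : Type uu := {v : V // (∀ a, v ≠ c a) ∨ v = c r}

open Classical in
/-- the contraction -/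
noncomputable def phi (c : Fin n → V) (r : Fin n) (v : V) : CV c r :=
  if h : ∀ a, v ≠ c a then ⟨v, Or.inl h⟩ else ⟨c r, Or.inr rfl⟩

/-- the contracted graph -/
def CF (c : Fin n → V) (r : Fin n) : SimpleGraph (CV c r) where
  Adj a b := a ≠ b ∧ ∃ u v, phi c r u = a ∧ phi c r v = b ∧ F.Adj u v
  symm := ⟨fun _ _ ⟨h, u, v, h1, h2, h3⟩ => ⟨h.symm, v, u, h2, h1, h3.symm⟩⟩
  loopless := ⟨fun _ h => h.1 rfl⟩

theorem phi_out {v : V} (h : ∀ a, v ≠ c a) : (phi c r v).1 = v := by
  unfold phi; rw [dif_pos h]

theorem phi_in (a : Fin n) : phi c r (c a) = ⟨c r, Or.inr rfl⟩ := by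
  unfold phi; rw [dif_neg (fun h => h a rfl)]

theorem phi_val (a : CV c r) : phi c r a.1 = a := by
  rcases a with ⟨v, h | rfl⟩
  · exact Subtype.ext (phi_out c r h)
  · exact phi_in c r r

/-- preimages of a vertex which is not the contracted one -/
theorem phi_eq {v : V} {a : CV c r} (ha : a.1 ≠ c r) (h : phi c r v = a) :
    v = a.1 ∧ ∀ b, v ≠ c b := by
  by_cases h1 : ∀ b, v ≠ c b
  · refine ⟨?_, h1⟩
    rw [← h, phi_out c r h1]
  · push Not at h1
    obtain ⟨b, rfl⟩ := h1
    rw [phi_in] at h
    exact absurd (by rw [← h]) ha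

theorem phi_eq_r {v : V} {a : CV c r} (ha : a.1 = c r) (h : phi c r v = a) : ∃ b, v = c b := by
  by_contra h1
  push Not at h1
  have h2 := phi_out c r h1
  rw [h, ha] at h2
  exact h1 r h2.symm

include hadj in
theorem rr_adj (l a : Fin n) : F.Adj (c a) (c (rr l a)) := by
  unfold rr
  split_ifs
  · exact hadj a
  · have := hadj (a - 1)
    rw [sub_add_cancel] at this
    exact this.symm

include hu hn ho hc hadj in
/-- a perfect matching of the contracted graph lifts to one of `F` -/
theorem lift (μ : CV c r → CV c r) (hμ : IsPM (CF F c r) μ) (l : Fin n)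
    (hl : F.Adj (c l) (μ ⟨c r, Or.inr rfl⟩).1) :
    m (c l) = (μ ⟨c r, Or.inr rfl⟩).1 ∧
      ∀ v : CV c r, v.1 ≠ c r → v ≠ μ ⟨c r, Or.inr rfl⟩ → m v.1 = (μ v).1 := by
  classical
  set R : CV c r := ⟨c r, Or.inr rfl⟩ with hR
  set c0 := μ R with hc0
  have h1 : c0.1 ≠ c r := by
    intro h
    have : c0 = R := Subtype.ext h
    have h2 := (hμ.2 R)
    rw [← hc0, this] at h2
    exact (CF F c r).loopless.irrefl _ h2
  have h1' : ∀ a, c0.1 ≠ c a := by
    rcases c0.2 with h | h
    · exact h
    · exact absurd h h1
  -- the matching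
  let ν : V → V := fun v =>
    if v = c l then c0.1 else if v = c0.1 then c l else
      if h : ∃ a, v = c a then c (rr l h.choose) else (μ (phi c r v)).1
  have hν1 : ν (c l) = c0.1 := if_pos rfl
  have hν2 : ν c0.1 = c l := by
    show (if c0.1 = c l then c0.1 else if c0.1 = c0.1 then c l else _) = c l
    rw [if_neg (h1' l), if_pos rfl]
  have hν3 : ∀ a, a ≠ l → ν (c a) = c (rr l a) := by
    intro a ha
    show (if c a = c l then c0.1 else if c a = c0.1 then c l else
      if h : ∃ b, c a = c b then c (rr l h.choose) else (μ (phi c r (c a))).1) = c (rr l a)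
    have hex : ∃ b, c a = c b := ⟨a, rfl⟩
    rw [if_neg (fun h => ha (hc h)), if_neg (fun h => h1' a h.symm), dif_pos hex]
    have := hex.choose_spec
    rw [← hc this]
  have hν4 : ∀ v, (∀ a, v ≠ c a) → v ≠ c0.1 → ν v = (μ (phi c r v)).1 := by
    intro v hv hv0
    show (if v = c l then c0.1 else if v = c0.1 then c l else
      if h : ∃ b, v = c b then c (rr l h.choose) else (μ (phi c r v)).1) = (μ (phi c r v)).1
    rw [if_neg (hv l), if_neg hv0, dif_neg]
    rintro ⟨b, hb⟩
    exact hv b hb
  -- outside
  have hout : ∀ v, (∀ a, v ≠ c a) → v ≠ c0.1 → (∀ a, (μ (phi c r v)).1 ≠ c a) ∧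
      (μ (phi c r v)).1 ≠ c0.1 := by
    intro v hv hv0
    constructor
    · have h2 : (μ (phi c r v)).1 ≠ c r := by
        intro h
        have h3 : μ (phi c r v) = R := Subtype.ext h
        have h4 := hμ.1 (phi c r v)
        rw [h3, ← hc0] at h4
        have h5 := congrArg Subtype.val h4
        rw [phi_out c r hv] at h5
        exact hv0 h5.symm
      rcases (μ (phi c r v)).2 with h | h
      · exact h
      · exact absurd h h2
    · intro h
      have h3 : μ (phi c r v) = c0 := Subtype.ext h
      have h4 := hμ.1 (phi c r v)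
      rw [h3, hc0, hμ.1 R] at h4
      have h5 := congrArg Subtype.val h4
      rw [phi_out c r hv] at h5
      exact hv r h5.symm
  have hν : IsPM F ν := by
    constructor
    · intro v
      by_cases h2 : v = c l
      · rw [h2, hν1, hν2]
      by_cases h3 : v = c0.1
      · rw [h3, hν2, hν1]
      by_cases h4 : ∃ a, v = c a
      · obtain ⟨a, rfl⟩ := h4
        have ha : a ≠ l := fun h => h2 (by rw [h])
        obtain ⟨h5, h6, -⟩ := rr_spec hn ho l a ha
        rw [hν3 a ha, hν3 _ h5, h6]
      · push Not at h4
        obtain ⟨h5, h6⟩ := hout v h4 h3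
        rw [hν4 v h4 h3, hν4 _ h5 h6, phi_val, hμ.1, phi_out c r h4]
    · intro v
      by_cases h2 : v = c l
      · rw [h2, hν1]; exact hl
      by_cases h3 : v = c0.1
      · rw [h3, hν2]; exact hl.symm
      by_cases h4 : ∃ a, v = c a
      · obtain ⟨a, rfl⟩ := h4
        have ha : a ≠ l := fun h => h2 (by rw [h])
        rw [hν3 a ha]
        exact rr_adj F c hadj l a
      · push Not at h4
        obtain ⟨h5, h6⟩ := hout v h4 h3
        rw [hν4 v h4 h3]
        obtain ⟨-, x, y, hx, hy, hxy⟩ := hμ.2 (phi c r v)
        have hx' := phi_eq c r (a := phi c r v) (by rw [phi_out c r h4]; exact h4 r) hx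
        have hy' := phi_eq c r (a := μ (phi c r v)) (h5 r) hy
        rw [hx'.1, hy'.1, phi_out c r h4] at hxy
        exact hxy
  have hνm := hu ν hν
  constructor
  · rw [← hνm, hν1]
  · intro v hv hv0
    have hv' : ∀ a, v.1 ≠ c a := by
      rcases v.2 with h | h
      · exact h
      · exact absurd h hv
    rw [← hνm, hν4 v.1 hv' (fun h => hv0 (Subtype.ext h)), phi_val]


include hm hu hn ho hc hadj hr hr' in
/-- the induced matching of the contracted graph -/
theorem contract (V' : Type uu) (_ : V' = CV c r) :
    ∃ m' : CV c r → CV c r, (∀ v, (m' v).1 = m v.1) ∧ IsPM (CF F c r) m' ∧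
      (∀ μ, IsPM (CF F c r) μ → μ = m') ∧
      ∀ v : CV c r, (CF F c r).IsBridge s(v, m' v) → F.IsBridge s(v.1, m v.1) := by
  classical
  have hin : ∀ v : CV c r, (∀ a, m v.1 ≠ c a) ∨ m v.1 = c r := by
    rintro ⟨v, h | rfl⟩
    · by_cases h1 : ∀ a, m v ≠ c a
      · exact Or.inl h1
      · push Not at h1
        obtain ⟨a, ha⟩ := h1
        right
        show m v = c r
        by_cases har : a = r
        · rw [ha, har]
        · obtain ⟨b, hb⟩ := hr a har
          rw [← ha, hm.1] at hb
          exact absurd hb (h b)
    · exact Or.inl hr'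
  let m' : CV c r → CV c r := fun v => ⟨m v.1, hin v⟩
  have hm'1 : ∀ v, (m' v).1 = m v.1 := fun v => rfl
  have hm' : IsPM (CF F c r) m' := by
    constructor
    · intro v
      exact Subtype.ext (hm.1 v.1)
    · intro v
      refine ⟨?_, v.1, m v.1, phi_val c r v, phi_val c r (m' v), hm.2 v.1⟩
      intro h
      exact (hm.2 v.1).ne (congrArg Subtype.val h)
  set R : CV c r := ⟨c r, Or.inr rfl⟩ with hR
  have hμu : ∀ μ, IsPM (CF F c r) μ → μ = m' := by
    intro μ hμ
    obtain ⟨hne, x, y, hx, hy, hxy⟩ := hμ.2 R
    obtain ⟨l, rfl⟩ := phi_eq_r c r rfl hx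
    have h1 : (μ R).1 ≠ c r := fun h => hne (Subtype.ext h.symm)
    obtain ⟨hy1, hy2⟩ := phi_eq c r h1 hy
    rw [hy1] at hxy
    obtain ⟨h2, h3⟩ := lift F m hu hn ho c hc hadj r μ hμ l hxy
    have hlr : l = r := by
      by_contra h4
      obtain ⟨b, hb⟩ := hr l h4
      rw [h2] at hb
      rcases (μ R).2 with h5 | h5
      · exact h5 b hb
      · exact h1 h5
    rw [hlr] at h2
    funext v
    apply Subtype.ext
    rw [hm'1]
    by_cases hv : v.1 = c r
    · have : v = R := Subtype.ext hv
      rw [this]
      exact h2.symm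
    · by_cases hv2 : v = μ R
      · rw [hv2, hμ.1, ← h2, hm.1]
      · exact (h3 v hv hv2).symm
  refine ⟨m', hm'1, hm', hμu, ?_⟩
  intro v hb
  rw [isBridge_iff] at hb ⊢
  intro hre
  apply hb
  have key : ∀ x y, (F.deleteEdges {s(v.1, m v.1)}).Adj x y →
      ((CF F c r).deleteEdges {s(v, m' v)}).Reachable (phi c r x) (phi c r y) := by
    intro x y hxy
    rw [deleteEdges_adj, Set.mem_singleton_iff] at hxy
    obtain ⟨hxy, hne⟩ := hxy
    by_cases h1 : phi c r x = phi c r y
    · rw [h1]
    · refine Adj.reachable ?_
      rw [deleteEdges_adj, Set.mem_singleton_iff]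
      refine ⟨⟨h1, x, y, rfl, rfl, hxy⟩, ?_⟩
      -- general statement
      have gen : ∀ x y, F.Adj x y → phi c r x = v → phi c r y = m' v → x = v.1 ∧ y = m v.1 := by
        intro x y hxy h2 h3
        by_cases hv : v.1 = c r
        · have hvR : v = R := Subtype.ext hv
          have h4 : (m' v).1 ≠ c r := by
            rw [hm'1, hv]; exact hr' r
          obtain ⟨h5, -⟩ := phi_eq c r h4 h3
          obtain ⟨l, rfl⟩ := phi_eq_r c r hv h2
          rw [h5, hvR] at hxy
          obtain ⟨h6, -⟩ := lift F m hu hn ho c hc hadj r m' hm' l hxy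
          have hlr : l = r := by
            by_contra h7
            obtain ⟨b, hb⟩ := hr l h7
            rw [h6, hm'1] at hb
            exact hr' b hb
          rw [hlr, hv]
          refine ⟨rfl, ?_⟩
          rw [h5, hm'1, hv]
        · obtain ⟨h4, -⟩ := phi_eq c r hv h2
          by_cases hmv : (m' v).1 = c r
          · obtain ⟨l, rfl⟩ := phi_eq_r c r hmv h3
            have hmvR : m' v = R := Subtype.ext hmv
            have hvR : m' R = v := by rw [← hmvR, hm'.1]
            have h5 : F.Adj (c l) (m' R).1 := by
              rw [hvR, ← h4]; exact hxy.symm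
            obtain ⟨h6, -⟩ := lift F m hu hn ho c hc hadj r m' hm' l h5
            have hlr : l = r := by
              by_contra h7
              obtain ⟨b, hb⟩ := hr l h7
              rw [h6, hm'1] at hb
              exact hr' b hb
            refine ⟨h4, ?_⟩
            rw [hlr]
            exact hmv.symm
          · obtain ⟨h5, -⟩ := phi_eq c r hmv h3
            exact ⟨h4, h5⟩
      intro he
      rcases Sym2.eq_iff.1 he with ⟨h2, h3⟩ | ⟨h2, h3⟩
      · obtain ⟨h4, h5⟩ := gen x y hxy h2 h3
        exact hne (by rw [h4, h5])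
      · obtain ⟨h4, h5⟩ := gen y x hxy.symm h3 h2
        exact hne (by rw [h4, h5, Sym2.eq_swap])
  have key2 : ∀ x y, (F.deleteEdges {s(v.1, m v.1)}).Reachable x y →
      ((CF F c r).deleteEdges {s(v, m' v)}).Reachable (phi c r x) (phi c r y) := by
    rintro x y ⟨w⟩
    induction w with
    | nil => exact Reachable.refl _
    | cons h _ ih => exact (key _ _ h).trans ih
  have h1 := key2 _ _ hre
  rw [phi_val] at h1
  have h2 : phi c r (m v.1) = m' v := phi_val c r (m' v)
  rw [h2] at h1
  exact h1

end Blossom

/-- an alternating path: `p 0, …, p (2 k + 1)` -/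
def AltP {V : Type uu} (F : SimpleGraph V) (m : V → V) (p : ℕ → V) (k : ℕ) : Prop :=
  (∀ i ≤ 2 * k + 1, ∀ j ≤ 2 * k + 1, p i = p j → i = j) ∧
    (∀ i ≤ k, m (p (2 * i)) = p (2 * i + 1)) ∧ ∀ i < k, F.Adj (p (2 * i + 1)) (p (2 * i + 2))

theorem exists_max_alt {V : Type uu} [Finite V] [Nonempty V] (F : SimpleGraph V) (m : V → V)
    (hm : IsPM F m) : ∃ p k, AltP F m p k ∧ ∀ q k', AltP F m q k' → k' ≤ k := by
  classical
  obtain ⟨v⟩ := ‹Nonempty V›
  have h0 : AltP F m (fun i => if i = 0 then v else m v) 0 := by
    refine ⟨?_, ?_, ?_⟩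
    · intro i hi j hj hij
      have hne : v ≠ m v := (hm.2 v).ne
      have hi' : i = 0 ∨ i = 1 := by omega
      have hj' : j = 0 ∨ j = 1 := by omega
      rcases hi' with rfl | rfl <;> rcases hj' with rfl | rfl
      · rfl
      · exact absurd hij (by simpa using hne)
      · exact absurd hij.symm (by simpa using hne)
      · rfl
    · intro i hi
      have : i = 0 := by omega
      subst this
      simp
    · intro i hi
      omega
  have hb : ∀ q k', AltP F m q k' → k' ≤ Nat.card V := by
    intro q k' hq
    have h1 : Function.Injective (fun i : Fin (2 * k' + 2) => q i.1) := by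
      intro i j hij
      exact Fin.ext (hq.1 i.1 (by omega) j.1 (by omega) hij)
    have h2 := Nat.card_le_card_of_injective _ h1
    rw [Nat.card_eq_fintype_card, Fintype.card_fin] at h2
    omega
  have hex : ∃ k, (∃ p, AltP F m p k) ∧ ∀ k', (∃ q, AltP F m q k') → k' ≤ k := by
    have hS : {k | ∃ p, AltP F m p k}.Nonempty := ⟨0, _, h0⟩
    have hfin : {k | ∃ p, AltP F m p k}.Finite := by
      refine (Set.finite_Iic (Nat.card V)).subset ?_
      rintro k ⟨p, hp⟩
      exact hb p k hp
    obtain ⟨k, hk, hmax⟩ := Set.exists_max_image _ id hfin hS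
    exact ⟨k, hk, fun k' hk' => hmax k' hk'⟩
  obtain ⟨k, ⟨p, hp⟩, hmax⟩ := hex
  exact ⟨p, k, hp, fun q k' hq => hmax k' ⟨q, hq⟩⟩

theorem kotzig_aux : ∀ (N : ℕ) (V : Type uu) (_ : Finite V) (F : SimpleGraph V) (m : V → V),
    Nat.card V = N → Nonempty V → IsPM F m → (∀ m', IsPM F m' → m' = m) →
    ∃ v, F.IsBridge s(v, m v) := by
  intro N
  induction N using Nat.strong_induction_on with
  | _ N ih =>
  intro V _ F m hN _ hm hu
  classical
  obtain ⟨p, k, ⟨hp1, hp2, hp3⟩, hmax⟩ := exists_max_alt F m hm
  have hm01 : m (p 0) = p 1 := hp2 0 (Nat.zero_le _)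
  have hmodd : ∀ i ≤ k, m (p (2 * i + 1)) = p (2 * i) := by
    intro i hi
    rw [← hp2 i hi, hm.1]
  -- adjacency along the path
  have hpadj : ∀ i < 2 * k + 1, F.Adj (p i) (p (i + 1)) := by
    intro i hi
    rcases Nat.even_or_odd' i with ⟨j, rfl | rfl⟩
    · have := hm.2 (p (2 * j))
      rwa [hp2 j (by omega)] at this
    · exact hp3 j (by omega)
  by_cases hex : ∃ y, F.Adj (p 0) y ∧ y ≠ p 1
  · obtain ⟨y, hy, hy1⟩ := hex
    by_cases hyp : ∃ j ≤ 2 * k + 1, y = p j
    · obtain ⟨j, hj, rfl⟩ := hyp
      have hj0 : j ≠ 0 := by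
        rintro rfl
        exact F.loopless.irrefl _ hy
      have hj1 : j ≠ 1 := by
        rintro rfl
        exact hy1 rfl
      rcases Nat.even_or_odd' j with ⟨i, rfl | rfl⟩
      · -- blossom
        have hi1 : 1 ≤ i := by omega
        let n := 2 * i + 1
        have hn : 3 ≤ n := by omega
        have ho : Odd n := ⟨i, rfl⟩
        have : NeZero n := ⟨by omega⟩
        let c : Fin n → V := fun a => p a.1
        have hc : Function.Injective c := by
          intro a b hab
          have h1 := a.isLt
          have h2 := b.isLt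
          exact Fin.ext (hp1 a.1 (by omega) b.1 (by omega) hab)
        have hadj : ∀ a, F.Adj (c a) (c (a + 1)) := by
          intro a
          have ha := a.isLt
          by_cases h1 : a.1 = 2 * i
          · have h2 : (a + 1).1 = 0 := by
              rw [Fin.val_add, rr_val_one hn, h1]
              exact Nat.mod_self n
            show F.Adj (p a.1) (p (a + 1).1)
            rw [h1, h2]
            exact hy.symm
          · have h2 : (a + 1).1 = a.1 + 1 := by
              rw [Fin.val_add, rr_val_one hn]
              exact Nat.mod_eq_of_lt (by omega)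
            show F.Adj (p a.1) (p (a + 1).1)
            rw [h2]
            exact hpadj a.1 (by omega)
        let r : Fin n := ⟨2 * i, by omega⟩
        have hr : ∀ a, a ≠ r → ∃ b, m (c a) = c b := by
          intro a ha
          have ha2 := a.isLt
          have ha3 : a.1 ≠ 2 * i := fun h => ha (Fin.ext h)
          rcases Nat.even_or_odd' a.1 with ⟨b, hb | hb⟩
          · refine ⟨⟨2 * b + 1, by omega⟩, ?_⟩
            show m (p a.1) = p (2 * b + 1)
            rw [hb]
            exact hp2 b (by omega)
          · refine ⟨⟨2 * b, by omega⟩, ?_⟩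
            show m (p a.1) = p (2 * b)
            rw [hb]
            exact hmodd b (by omega)
        have hr' : ∀ a, m (c r) ≠ c a := by
          intro a ha
          have h1 : m (c r) = p (2 * i + 1) := hp2 i (by omega)
          rw [h1] at ha
          have h2 := a.isLt
          have := hp1 (2 * i + 1) (by omega) a.1 (by omega) ha
          omega
        obtain ⟨m', hm'1, hm', hμ, hbr⟩ := contract F m hm hu hn ho c hc hadj r hr hr' _ rfl
        have hlt : Nat.card (CV c r) < N := by
          rw [← hN]
          have h1 : Function.Injective (Subtype.val : CV c r → V) := Subtype.val_injective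
          have h2 : ¬ Function.Surjective (Subtype.val : CV c r → V) := by
            intro hs
            obtain ⟨a, ha⟩ := hs (p 0)
            rcases a.2 with h3 | h3
            · exact h3 ⟨0, by omega⟩ ha
            · rw [ha] at h3
              have := hp1 0 (by omega) (2 * i) (by omega) h3
              omega
          by_contra h3
          push Not at h3
          have h4 := Nat.card_le_card_of_injective _ h1
          have h5 : Nat.card (CV c r) = Nat.card V := le_antisymm h4 h3
          exact h2 ((Nat.bijective_iff_injective_and_card _).2 ⟨h1, h5⟩).2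
        obtain ⟨v, hv⟩ := ih _ hlt (CV c r) inferInstance (CF F c r) m' rfl
          ⟨⟨c r, Or.inr rfl⟩⟩ hm' hμ
        exact ⟨v.1, hbr v hv⟩
      · -- an alternating circuit: a second perfect matching
        exfalso
        have hi1 : 1 ≤ i := by omega
        let σ : ℕ → ℕ := fun l => if l = 0 then 2 * i + 1 else if l = 2 * i + 1 then 0 else
          if Odd l then l + 1 else l - 1
        have hσ1 : ∀ l ≤ 2 * i + 1, σ l ≤ 2 * i + 1 := by
          intro l hl
          simp only [σ]
          split_ifs with h1 h2 h3
          · exact le_rfl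
          · omega
          · omega
          · omega
        have hσ2 : ∀ l ≤ 2 * i + 1, σ (σ l) = l := by
          intro l hl
          simp only [σ]
          by_cases h1 : l = 0
          · subst h1
            simp
          · by_cases h2 : l = 2 * i + 1
            · subst h2
              simp
            · by_cases h3 : Odd l
              · rw [if_neg h1, if_neg h2, if_pos h3, if_neg (by omega)]
                obtain ⟨b, hb⟩ := h3
                rw [if_neg (by omega), if_neg]
                · omega
                · rw [Nat.not_odd_iff_even]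
                  exact ⟨b + 1, by omega⟩
              · rw [if_neg h1, if_neg h2, if_neg h3]
                rw [Nat.not_odd_iff_even] at h3
                obtain ⟨b, hb⟩ := h3
                rw [if_neg (by omega), if_neg (by omega), if_pos ⟨b - 1, by omega⟩]
                omega
        have hσ3 : ∀ l ≤ 2 * i + 1, F.Adj (p l) (p (σ l)) := by
          intro l hl
          simp only [σ]
          split_ifs with h1 h2 h3
          · subst h1; exact hy
          · subst h2; exact hy.symm
          · exact hpadj l (by
              obtain ⟨b, hb⟩ := h3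
              omega)
          · have := hpadj (l - 1) (by omega)
            rw [Nat.sub_add_cancel (by omega)] at this
            exact this.symm
        let ν : V → V := fun v => if h : ∃ l, l ≤ 2 * i + 1 ∧ v = p l then p (σ h.choose) else m v
        have hν1 : ∀ l ≤ 2 * i + 1, ν (p l) = p (σ l) := by
          intro l hl
          have hex : ∃ l', l' ≤ 2 * i + 1 ∧ p l = p l' := ⟨l, hl, rfl⟩
          show (if h : ∃ l', l' ≤ 2 * i + 1 ∧ p l = p l' then p (σ h.choose) else m (p l)) = _
          rw [dif_pos hex]
          have h1 := hex.choose_spec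
          rw [← hp1 l (by omega) _ (by omega) h1.2]
        have hν2 : ∀ v, (∀ l ≤ 2 * i + 1, v ≠ p l) → ν v = m v := by
          intro v hv
          show (if h : ∃ l', l' ≤ 2 * i + 1 ∧ v = p l' then p (σ h.choose) else m v) = _
          rw [dif_neg]
          rintro ⟨l, hl, h1⟩
          exact hv l hl h1
        have hclosed : ∀ l ≤ 2 * i + 1, ∃ l' ≤ 2 * i + 1, m (p l) = p l' := by
          intro l hl
          rcases Nat.even_or_odd' l with ⟨b, rfl | rfl⟩
          · exact ⟨2 * b + 1, by omega, hp2 b (by omega)⟩
          · exact ⟨2 * b, by omega, hmodd b (by omega)⟩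
        have hν : IsPM F ν := by
          constructor
          · intro v
            by_cases h1 : ∃ l ≤ 2 * i + 1, v = p l
            · obtain ⟨l, hl, rfl⟩ := h1
              rw [hν1 l hl, hν1 _ (hσ1 l hl), hσ2 l hl]
            · push Not at h1
              have h2 : ∀ l ≤ 2 * i + 1, m v ≠ p l := by
                intro l hl h3
                obtain ⟨l', hl', h4⟩ := hclosed l hl
                rw [← h3, hm.1] at h4
                exact h1 l' hl' h4
              rw [hν2 v h1, hν2 _ h2, hm.1]
          · intro v
            by_cases h1 : ∃ l ≤ 2 * i + 1, v = p l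
            · obtain ⟨l, hl, rfl⟩ := h1
              rw [hν1 l hl]
              exact hσ3 l hl
            · push Not at h1
              rw [hν2 v h1]
              exact hm.2 v
        have h1 := hν1 0 (by omega)
        rw [hu ν hν, hm01] at h1
        have h2 : σ 0 = 2 * i + 1 := if_pos rfl
        rw [h2] at h1
        have := hp1 1 (by omega) (2 * i + 1) (by omega) h1
        omega
    · -- the path can be extended
      exfalso
      push Not at hyp
      have hmy : ∀ j ≤ 2 * k + 1, m y ≠ p j := by
        intro j hj h1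
        rcases Nat.even_or_odd' j with ⟨b, rfl | rfl⟩
        · have h2 := hp2 b (by omega)
          rw [← h1, hm.1] at h2
          exact hyp _ (by omega) h2
        · have h2 := hmodd b (by omega)
          rw [← h1, hm.1] at h2
          exact hyp _ (by omega) h2
      have hyy : m y ≠ y := (hm.2 y).ne'
      let q : ℕ → V := fun i => if i = 0 then m y else if i = 1 then y else p (i - 2)
      have hq0 : q 0 = m y := rfl
      have hq1 : q 1 = y := rfl
      have hq2 : ∀ i, q (i + 2) = p i := fun i => by
        show (if i + 2 = 0 then m y else if i + 2 = 1 then y else p (i + 2 - 2)) = p i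
        rw [if_neg (by omega), if_neg (by omega)]
        rfl
      have hq : AltP F m q (k + 1) := by
        refine ⟨?_, ?_, ?_⟩
        · intro i hi j hj hij
          rcases i with _ | _ | i <;> rcases j with _ | _ | j
          · rfl
          · exact absurd hij hyy
          · rw [hq0, hq2] at hij
            exact absurd hij (hmy j (by omega))
          · exact absurd hij.symm hyy
          · rfl
          · rw [show q (0 + 1) = y from rfl, hq2] at hij
            exact absurd hij (hyp j (by omega))
          · rw [hq0, hq2] at hij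
            exact absurd hij.symm (hmy i (by omega))
          · rw [show q (0 + 1) = y from rfl, hq2] at hij
            exact absurd hij.symm (hyp i (by omega))
          · rw [show i + 1 + 1 = i + 2 from rfl, show j + 1 + 1 = j + 2 from rfl, hq2, hq2] at hij
            have := hp1 i (by omega) j (by omega) hij
            omega
        · intro i hi
          rcases i with _ | i
          · show m (q 0) = q 1
            rw [hq0, hq1, hm.1]
          · rw [show 2 * (i + 1) = 2 * i + 2 from by ring, hq2,
              show 2 * i + 2 + 1 = (2 * i + 1) + 2 from by ring, hq2]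
            exact hp2 i (by omega)
        · intro i hi
          rcases i with _ | i
          · show F.Adj (q 1) (q 2)
            rw [hq1, show q 2 = p 0 from hq2 0]
            exact hy.symm
          · rw [show 2 * (i + 1) + 1 = (2 * i + 1) + 2 from by ring, hq2,
              show 2 * (i + 1) + 2 = (2 * i + 2) + 2 from by ring, hq2]
            exact hp3 i (by omega)
      have := hmax q (k + 1) hq
      omega
  · -- a pendant vertex
    push Not at hex
    refine ⟨p 0, ?_⟩
    rw [hm01, isBridge_iff]
    have gen : ∀ a b, a = p 0 → b ≠ a → ¬ (F.deleteEdges {s(p 0, p 1)}).Reachable a b := by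
      rintro a b ha hb ⟨w⟩
      cases w with
      | nil => exact hb rfl
      | cons h _ =>
        subst ha
        rw [deleteEdges_adj, Set.mem_singleton_iff] at h
        have h1 := hex _ h.1
        exact h.2 (by rw [h1])
    have := hm.2 (p 0)
    rw [hm01] at this
    exact gen _ _ rfl this.ne'

/-- **Kotzig's theorem.** -/
theorem kotzig {V : Type uu} [Finite V] [Nonempty V] (F : SimpleGraph V) (m : V → V)
    (hm : IsPM F m) (hu : ∀ m', IsPM F m' → m' = m) : ∃ v, F.IsBridge s(v, m v) :=
  kotzig_aux _ V inferInstance F m rfl inferInstance hm hu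

end Pool.Agent.H44.TH
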